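import Pool.Agent.Helper25.T5g.Extra
import Pool.Agent.Helper27.T5g.Range

/-!
# T5b: sizes for the crude case
-/

set_option autoImplicit false

namespace Pool.Agent.Helper25.T5g

open Finset Pool.Agent.Helper27.T4
open Pool.Agent.Helper5.ET (bb era own cnt av Nj pr pr_prime pr_inj pre mask)
open Pool.Agent.Helper37.T5g Pool.Agent.Helper84.T5g Pool.Agent.Helper57.T5
open Pool.Agent.Helper27.T5b
open Pool.Agent.Helper27.T5g hiding c0_lt
open Pool.Agent.Helper30.T5g
open Pool.Agent.Helper98.T5 (al PrOK)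
open Pool.Agent.Helper27.T5 (gw)

variable {m : Sq} {k : ℕ}

theorem pr_ok (k s : ℕ) : PrOK (pJ k s) (BP k) where
  prime := pJ_prime k s
  inj := pJ_inj k s
  two := pJ_two k s
  le := by
    rintro (f | i)
    · exact pr_le_BP k f
    · refine Fin.cases ?_ (fun f => ?_) i
      · exact (buf_lt_BP k).le
      · exact pz_le k (s + 1) f

/-- the ratio of consecutive sizes is large -/
theorem ratio_le {M : ℕ} (h : ∀ t, M ≤ 2 ^ m.q t) (t : ℕ) : M * SS m t ≤ SS m (t + 1) := by
  rw [SS_succ, mul_comm]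
  refine Nat.mul_le_mul_left _ ((h t).trans (Nat.pow_le_pow_right (by norm_num) (by omega)))

/-- the logarithm of a prime is at most that of the bound -/
theorem log_pJ_le (k s : ℕ) (i : JF) : 0 ≤ Real.log (pJ k s i) ∧
    Real.log (pJ k s i) ≤ Real.log (BP k) := by
  have h1 := (pJ_prime k s i).one_lt
  have h2 := (pr_ok k s).le i
  refine ⟨Real.log_nonneg (by exact_mod_cast h1.le), ?_⟩
  exact Real.log_le_log (by exact_mod_cast (by omega : 0 < pJ k s i)) (by exact_mod_cast h2)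

/-- the newborn triple is not larger than `14 SS (s + 1)` -/
theorem al_newborn_le (hm : m.Ok) (k s l : ℕ) (f : Fin 3) :
    al (pJ k s) (aJ m k s l) (Sum.inr f.succ) ≤ 14 * (gw f * Sg m (s + 1) / 8 : ℝ) := by
  have h1 : aJ m k s l (Sum.inr f.succ) ≤ zf m k (s + 1) f := ct_some_le_zf hm (s + 1) f l
  have h2 : al (pJ k s) (aJ m k s l) (Sum.inr f.succ) ≤
      (zf m k (s + 1) f : ℝ) * Real.log (pz k (s + 1) f) := by
    show (aJ m k s l (Sum.inr f.succ) : ℝ) * Real.log (pJ k s (Sum.inr f.succ)) ≤ _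
    exact mul_le_mul_of_nonneg_right (by exact_mod_cast h1) (log_pJ_le k s (Sum.inr f.succ)).1
  refine h2.trans ?_
  have h3 : (zf m k (s + 1) f : ℝ) * Real.log (pz k (s + 1) f) =
      Real.log ((QF m k (s + 1) f : ℕ) : ℝ) := by
    unfold QF
    rw [Nat.cast_pow, Real.log_pow]
  rw [h3]
  have h4 := QF_le m k (s + 1) f
  have h5 : (QF m k (s + 1) f : ℝ) ≤ Real.exp (14 * (dz m (s + 1) f : ℕ)) :=
    le_trans (by exact_mod_cast h4) (pow6_le _)
  have h6 : (0 : ℝ) < QF m k (s + 1) f := by exact_mod_cast QF_pos m k (s + 1) f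
  refine ((Real.log_le_iff_le_exp h6).2 h5).trans ?_
  have h7 := eight_mul_dz hm (s + 1) f
  have h8 : (8 : ℝ) * (dz m (s + 1) f : ℕ) = (gw f : ℝ) * Sg m (s + 1) := by exact_mod_cast h7
  linarith

/-- the numbers of the crude case -/
theorem exists_crude_num (hm : m.Ok) (k B : ℕ) (hq : ∀ t, 10 ^ 6 * BP k ≤ 2 ^ m.q t)
    [hQ : BigQ m k] : ∃ l0, ∀ l l', l0 ≤ l' → l' ≤ l →
    CaseCrude m k l' l →
    l' < l ∧ B ≤ mL m k l - mL m k l' ∧ B ≤ mL m k l ∧ 1 ≤ sL m k l ∧
    mL m k l' ≤ mL m k l ∧ ef m k l' 0 < l ∧ Jn m k (sL m k l) l ≤ NL m k l ∧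
    Jn m k (sL m k l') l' ≤ NL m k l' ∧
    bb 0 ≤ mL m k l ∧ kt m k ≤ era (mL m k l) ∧
    100 * (mL m k l - mL m k l') ≤ mL m k l ∧ 1000 * l ≤ 1001 * mL m k l ∧
    199 * SS m (sL m k l) ≤ mL m k l - mL m k l' ∧
    (∑ q : Fin 4, (al (pJ k (sL m k l)) (aJ m k (sL m k l) l) (Sum.inr q) -
      al (pJ k (sL m k l)) (aJ m k (sL m k l) l') (Sum.inr q)) ≤
      1 / 100 * ((mL m k l : ℝ) - mL m k l')) ∧
    (∑ q : Fin 4, al (pJ k (sL m k l)) (aJ m k (sL m k l) l) (Sum.inr q) ≤ 50 * mL m k l) ∧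
    (((17 * NL m k l' : ℕ) : ℝ) ≤ (∏ i, (pJ k (sL m k l) i : ℝ) ^ aJ m k (sL m k l) l' i) *
      Real.exp (8 / 100 * ((mL m k l : ℝ) - mL m k l'))) ∧
    (((17 * NL m k l + 17 * NL m k l' + 1 : ℕ) : ℝ) ≤ Real.exp (100 * mL m k l)) := by
  have hBP6 : 10 ^ 6 ≤ BP k := (million_lt_BP k).le
  obtain ⟨M, hMd⟩ : ∃ M, M = 400 * BP k + 10000 := ⟨_, rfl⟩
  have hM : 400 * Real.log (BP k) + 10000 ≤ (M : ℝ) := by
    have h1 := Real.log_le_self (Nat.cast_nonneg (α := ℝ) (BP k))
    rw [hMd]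
    push_cast
    linarith
  obtain ⟨la, ha⟩ := exists_extra hm k M (by omega)
  have hra := ratio_le (m := m) (M := 10 * M + 10000) (fun t => le_trans (by omega) (hq t))
  obtain ⟨lb, hb⟩ := exists_sL hm k (B + 1)
  obtain ⟨lc, hc⟩ := exists_NL_exp hm k
  obtain ⟨ld, hd⟩ := exists_late (m := m) (k := k) hm (B + 10) 0
  refine ⟨la + lb + lc + ld + B + 100, fun l l' hl' hl hC => ?_⟩
  obtain ⟨hN, hsame, h200⟩ := hC
  have hs : sL m k l' = sL m k l := hsame
  obtain ⟨b1, b2, b3⟩ := hb l' (by omega)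
  obtain ⟨b1', b2', b3'⟩ := hb l (by omega)
  obtain ⟨d1, _, _, _, d5⟩ := hd l (by omega)
  have d5' : 1000 * l ≤ 1001 * mL m k l := d5
  have hmon : mL m k l' ≤ mL m k l := l1_mono (ins m k) hl
  have hex := ha l l' (by omega) hl hN
  have h1 := l1_add_l2 (ins m k) l
  have h2 := l1_add_l2 (ins m k) l'
  have e1 : l1 (ins m k) l = mL m k l := rfl
  have e2 : l1 (ins m k) l' = mL m k l' := rfl
  rw [e1] at h1
  rw [e2] at h2
  have hl2m : l2 (ins m k) l' ≤ l2 (ins m k) l := l2_mono (ins m k) hl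
  -- the size of the buffer
  obtain ⟨u, hu⟩ : ∃ u, sL m k l = u + 1 := ⟨sL m k l - 1, by omega⟩
  have hlv : lv m k (era (mL m k l)) ≤ u + 1 := by
    rw [← hu]
    exact lv_le_sv m k (mL m k l)
  have hRB : RB m (lv m k (era (mL m k l))) ≤ SS m u := by
    have h3 : SS m (lv m k (era (mL m k l)) - 1) ≤ SS m u := SS_mono m (by omega)
    unfold RB
    omega
  have hrat := hra u
  have hSu := SS_pos m u
  have hSuM : M * SS m u ≤ SS m (u + 1) := by
    refine le_trans (Nat.mul_le_mul_right _ ?_) hrat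
    omega
  have hSu4 : 10000 * SS m u ≤ SS m (u + 1) := by
    refine le_trans (Nat.mul_le_mul_right _ ?_) hrat
    omega
  have hSuM10 : (10 * M) * SS m u ≤ SS m (u + 1) := by
    refine le_trans (Nat.mul_le_mul_right _ ?_) hrat
    omega
  have hSbig : 1000000 ≤ SS m u := by
    have := SS_ge hm u
    refine le_trans ?_ this
    calc 1000000 ≤ 2 ^ 20 := by norm_num
      _ ≤ 2 ^ 250 := Nat.pow_le_pow_right (by norm_num) (by norm_num)
  have hM4 : 10000 ≤ M := by
    have h3 : (10000 : ℝ) ≤ M := by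
      have : 0 ≤ Real.log (BP k) :=
        Real.log_nonneg (by exact_mod_cast (million_lt_BP k).le.trans' (by norm_num))
      linarith
    exact_mod_cast h3
  have hZ := ZZ_small (k := k) hm b2
  have hsp := (era_spec _ b1).1
  have hN' : 4 * (mL m k l - mL m k l') < ZZ m k (era (mL m k l')) := hN
  have hD100 : 100 * (mL m k l - mL m k l') ≤ mL m k l := by
    have h3 : 1024 * ZZ m k (era (mL m k l')) ≤ bb (era (mL m k l')) :=
      le_trans (Nat.mul_le_mul_right _ (by
        calc 1024 = 2 ^ 10 := by norm_num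
          _ ≤ 2 ^ 200 := Nat.pow_le_pow_right (by norm_num) (by norm_num))) hZ
    omega
  rw [hu] at h200
  -- lower bound of the main distance
  have hDM : (mL m k l - mL m k l') / (M + 1) ≤ (mL m k l - mL m k l') / 10000 :=
    Nat.div_le_div_left (by omega) (by norm_num)
  have hD : 199 * SS m (u + 1) ≤ mL m k l - mL m k l' := by omega
  have hJl := FF_pos m k l 0
  have hNLl : NL m k l = RT m k (sL m k l) * Jn m k (sL m k l) l := by
    rw [mul_comm]
    exact (Jn_mul_RT (cpl_self hm b1')).symm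
  have hNLl' : NL m k l' = RT m k (sL m k l) * Jn m k (sL m k l) l' := by
    have h3 := Jn_mul_RT (cpl_self hm (k := k) b1)
    rw [hs] at h3
    rw [mul_comm]
    exact h3.symm
  have hRTp := RT_pos m k (sL m k l)
  have hefl : ef m k l' 0 < l := by
    have h3 : ef m k l' 0 = ez m (u + 1) l' := by
      show ez m (sL m k l' - 0) l' = _
      rw [hs, hu]
      rfl
    rw [h3]
    have h4 := ez_sub_le hm (u + 1) l'
    have h5 := SS_pos m (u + 1)
    have h6 := lt_ez hm (u + 1) l'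
    omega
  refine ⟨by omega, ?_, ?_, by omega, hmon, hefl, ?_, ?_, b1', b2', hD100, d5', ?_, ?_, ?_, ?_,
    ?_⟩
  · -- `B ≤ D`
    have h4 : u + 1 ≤ SS m (u + 1) := by
      have h5 := aa_ge hm (u + 1)
      calc u + 1 ≤ 2 ^ (u + 1) := Nat.lt_two_pow_self.le
        _ ≤ _ := Nat.pow_le_pow_right (by norm_num) (by omega)
    omega
  · omega
  · rw [hNLl]
    exact Nat.le_mul_of_pos_left _ hRTp
  · rw [hNLl', hs]
    exact Nat.le_mul_of_pos_left _ hRTp
  · rw [hu]
    exact hD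
  · -- extra digits between the states
    have hDR : ((mL m k l - mL m k l' : ℕ) : ℝ) = (mL m k l : ℝ) - mL m k l' :=
      Nat.cast_sub hmon
    have h3 : ∑ q : Fin 4, (al (pJ k (sL m k l)) (aJ m k (sL m k l) l) (Sum.inr q) -
        al (pJ k (sL m k l)) (aJ m k (sL m k l) l') (Sum.inr q)) ≤
        ∑ q : Fin 4, ((aJ m k (sL m k l) l (Sum.inr q) : ℝ) -
          aJ m k (sL m k l) l' (Sum.inr q)) * Real.log (BP k) := by
      refine Finset.sum_le_sum (fun q _ => ?_)
      have h4 : (aJ m k (sL m k l) l' (Sum.inr q) : ℝ) ≤ aJ m k (sL m k l) l (Sum.inr q) := by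
        exact_mod_cast aJ_mono m k (sL m k l) hl (Sum.inr q)
      have h5 := log_pJ_le k (sL m k l) (Sum.inr q)
      unfold al
      rw [← sub_mul]
      exact mul_le_mul_of_nonneg_left h5.2 (by linarith)
    refine h3.trans ?_
    rw [← Finset.sum_mul, Finset.sum_sub_distrib]
    have h4 := sum_inr_le m k (sL m k l) hl
    have h5 : (∑ q : Fin 4, (aJ m k (sL m k l) l (Sum.inr q) : ℝ)) -
        ∑ q : Fin 4, (aJ m k (sL m k l) l' (Sum.inr q) : ℝ) ≤
        (((mL m k l - mL m k l') / (M + 1) + 2 + SS m u : ℕ) : ℝ) := by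
      have h6 : ∑ q : Fin 4, aJ m k (sL m k l) l (Sum.inr q) ≤
          ∑ q : Fin 4, aJ m k (sL m k l) l' (Sum.inr q) +
            ((mL m k l - mL m k l') / (M + 1) + 2 + SS m u) := by omega
      have h7 : ((∑ q : Fin 4, aJ m k (sL m k l) l (Sum.inr q) : ℕ) : ℝ) ≤
          ((∑ q : Fin 4, aJ m k (sL m k l) l' (Sum.inr q) +
            ((mL m k l - mL m k l') / (M + 1) + 2 + SS m u) : ℕ) : ℝ) := by exact_mod_cast h6
      rw [Nat.cast_add, Nat.cast_sum, Nat.cast_sum] at h7
      linarith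
    have h8 : 0 ≤ Real.log (BP k) :=
      Real.log_nonneg (by exact_mod_cast (million_lt_BP k).le.trans' (by norm_num))
    refine (mul_le_mul_of_nonneg_right h5 h8).trans ?_
    have h9 : (((mL m k l - mL m k l') / (M + 1) : ℕ) : ℝ) ≤
        ((mL m k l - mL m k l' : ℕ) : ℝ) / ((M + 1 : ℕ) : ℝ) := Nat.cast_div_le
    have hM0 : (10000 : ℝ) ≤ M := by exact_mod_cast hM4
    have h10 : Real.log (BP k) ≤ M / 400 := by linarith
    have h11 : (10 : ℝ) * M * SS m u ≤ SS m (u + 1) := by exact_mod_cast hSuM10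
    have h12 : (199 : ℝ) * SS m (u + 1) ≤ ((mL m k l - mL m k l' : ℕ) : ℝ) := by
      exact_mod_cast hD
    have h13 : (2 : ℝ) ≤ SS m u := by exact_mod_cast (by omega : 2 ≤ SS m u)
    rw [← hDR]
    generalize ((mL m k l - mL m k l' : ℕ) : ℝ) = D at *
    push_cast
    push_cast at h9
    have h14 : ((((mL m k l - mL m k l') / (M + 1) : ℕ) : ℝ)) * Real.log (BP k) ≤ D / 400 := by
      have hD0 : 0 ≤ D := by
        have : (0 : ℝ) ≤ SS m (u + 1) := Nat.cast_nonneg _
        linarith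
      calc ((((mL m k l - mL m k l') / (M + 1) : ℕ) : ℝ)) * Real.log (BP k) ≤
            D / ((M : ℝ) + 1) * (M / 400) :=
            mul_le_mul h9 h10 h8 (div_nonneg hD0 (by linarith))
        _ = (D / 400) * (M / (M + 1)) := by ring
        _ ≤ (D / 400) * 1 := by
            refine mul_le_mul_of_nonneg_left ?_ (by linarith)
            rw [div_le_one (by linarith)]
            linarith
        _ = _ := mul_one _
    have h15 : ((2 : ℝ) + SS m u) * Real.log (BP k) ≤ SS m (u + 1) := by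
      calc ((2 : ℝ) + SS m u) * Real.log (BP k) ≤ (2 * SS m u) * (M / 400) :=
            mul_le_mul (by linarith) h10 h8 (by linarith)
        _ = (10 * M * SS m u) / 2000 := by ring
        _ ≤ SS m (u + 1) / 2000 := by linarith
        _ ≤ _ := by
            have : (0 : ℝ) ≤ SS m (u + 1) := Nat.cast_nonneg _
            linarith
    linarith
  · -- all extra digits
    have h3 := sum_aJ_le m k (sL m k l) (Nat.zero_le l)
    have h30 : ∑ i, aJ m k (sL m k l) 0 i = 0 := by
      refine Finset.sum_eq_zero (fun i _ => ?_)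
      rw [aJ_eq_ct, ct_zero]
    rw [h30, Fintype.sum_sum_type, sum_main] at h3
    have h4 : aJ m k (sL m k l) l (Sum.inr 0) ≤
        ∑ q : Fin 4, aJ m k (sL m k l) l (Sum.inr q) :=
      Finset.single_le_sum (f := fun q : Fin 4 => aJ m k (sL m k l) l (Sum.inr q))
        (fun _ _ => Nat.zero_le _) (Finset.mem_univ 0)
    have h5 : 1000 * aJ m k (sL m k l) l (Sum.inr 0) ≤ mL m k l := by omega
    have h5R : (1000 : ℝ) * aJ m k (sL m k l) l (Sum.inr 0) ≤ mL m k l := by exact_mod_cast h5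
    rw [Fin.sum_univ_succ]
    have h6 : al (pJ k (sL m k l)) (aJ m k (sL m k l) l) (Sum.inr 0) ≤
        14 * aJ m k (sL m k l) l (Sum.inr 0) := by
      show (aJ m k (sL m k l) l (Sum.inr 0) : ℝ) * Real.log ((1000039 : ℕ) : ℝ) ≤ _
      have h7 : Real.log ((1000039 : ℕ) : ℝ) ≤ 14 := by
        rw [Real.log_le_iff_le_exp (by norm_num)]
        have h2 := Real.exp_one_gt_d9
        have h3 : Real.exp 14 = Real.exp 1 ^ 14 := by
          rw [← Real.exp_nat_mul]
          norm_num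
        rw [h3]
        calc ((1000039 : ℕ) : ℝ) ≤ 2.7182818283 ^ 14 := by norm_num
          _ ≤ _ := pow_le_pow_left₀ (by norm_num) h2.le _
      have h8 : (0 : ℝ) ≤ aJ m k (sL m k l) l (Sum.inr 0) := Nat.cast_nonneg _
      nlinarith
    have h9 : ∑ f : Fin 3, al (pJ k (sL m k l)) (aJ m k (sL m k l) l) (Sum.inr f.succ) ≤
        14 * SS m (sL m k l + 1) := by
      refine (Finset.sum_le_sum (fun f _ => al_newborn_le hm k (sL m k l) l f)).trans ?_
      rw [Fin.sum_univ_three]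
      have e0 : gw 0 = 3 := rfl
      have e1 : gw 1 = 3 := rfl
      have e2 : gw 2 = 2 := rfl
      rw [e0, e1, e2]
      have h10 : (Sg m (sL m k l + 1) : ℝ) ≤ SS m (sL m k l + 1) := by
        exact_mod_cast Sg_le m (sL m k l + 1)
      push_cast
      linarith
    have h11 : SS m (sL m k l + 1) ≤ mL m k l := SS_sv_succ_le' hm b1' b2'
    have h11R : (SS m (sL m k l + 1) : ℝ) ≤ mL m k l := by exact_mod_cast h11
    have h12 : (0 : ℝ) ≤ mL m k l := Nat.cast_nonneg _
    linarith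
  · -- the window
    have hDR : ((mL m k l - mL m k l' : ℕ) : ℝ) = (mL m k l : ℝ) - mL m k l' :=
      Nat.cast_sub hmon
    have h3 : (∏ i, (pJ k (sL m k l) i : ℝ) ^ aJ m k (sL m k l) l' i) =
        (Jn m k (sL m k l) l' : ℝ) := by
      unfold Jn NN
      push_cast
      rfl
    rw [h3, hNLl', ← hDR]
    have h4 := RT_le hm k (sL m k l)
    have h5 : (RT m k (sL m k l) : ℝ) ≤ Real.exp (14 * (SS m (sL m k l) : ℕ)) :=
      le_trans (by exact_mod_cast h4) (pow6_le _)
    have h6 : (17 : ℝ) ≤ Real.exp (SS m (sL m k l)) := by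
      have h7 : (17 : ℝ) ≤ SS m (sL m k l) := by
        have := SS_mono m (Nat.le_succ u)
        rw [hu]
        exact_mod_cast (by omega : 17 ≤ SS m (u + 1))
      have := Real.add_one_le_exp (SS m (sL m k l) : ℝ)
      linarith
    have h8 : (199 : ℝ) * SS m (sL m k l) ≤ ((mL m k l - mL m k l' : ℕ) : ℝ) := by
      rw [hu]
      exact_mod_cast hD
    have h9 : (17 : ℝ) * RT m k (sL m k l) ≤
        Real.exp (8 / 100 * ((mL m k l - mL m k l' : ℕ) : ℝ)) := by
      calc (17 : ℝ) * RT m k (sL m k l) ≤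
            Real.exp (SS m (sL m k l)) * Real.exp (14 * (SS m (sL m k l) : ℕ)) :=
            mul_le_mul h6 h5 (Nat.cast_nonneg _) (Real.exp_pos _).le
        _ = Real.exp (SS m (sL m k l) + 14 * (SS m (sL m k l) : ℕ)) := (Real.exp_add _ _).symm
        _ ≤ _ := Real.exp_le_exp.2 (by
            have : (0 : ℝ) ≤ SS m (sL m k l) := Nat.cast_nonneg _
            linarith)
    have hJ0 : (0 : ℝ) ≤ Jn m k (sL m k l) l' := Nat.cast_nonneg _
    push_cast
    nlinarith
  · -- the size of `n`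
    have h3 := hc l (by omega)
    have h4 : (NL m k l' : ℝ) ≤ NL m k l := by exact_mod_cast NL_mono m k hl
    have h5 : (1 : ℝ) ≤ NL m k l := by
      exact_mod_cast Pool.Agent.Helper30.T5g.NL_pos m k l
    have h6 : (35 : ℝ) ≤ Real.exp l := by
      have h7 : (100 : ℝ) ≤ l := by exact_mod_cast (by omega : 100 ≤ l)
      have := Real.add_one_le_exp (l : ℝ)
      linarith
    have h8 : (1000 : ℝ) * l ≤ 1001 * mL m k l := by exact_mod_cast d5'
    calc ((17 * NL m k l + 17 * NL m k l' + 1 : ℕ) : ℝ) ≤ 35 * NL m k l := by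
          push_cast
          linarith
      _ ≤ Real.exp l * Real.exp (15 * l) :=
          mul_le_mul h6 h3 (Nat.cast_nonneg _) (Real.exp_pos _).le
      _ = Real.exp (l + 15 * l) := (Real.exp_add _ _).symm
      _ ≤ _ := Real.exp_le_exp.2 (by
          have : (0 : ℝ) ≤ l := Nat.cast_nonneg _
          linarith)

end Pool.Agent.Helper25.T5g
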