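import Pool.Agent.Helper25.T5g.Void
import Pool.Agent.Helper18.T5.J1

/-!
# T5b, line 5, (L2), (L3): labels of the joint level with given main vectors
-/

set_option autoImplicit false

namespace Pool.Agent.Helper25.T5g

open Finset Pool.Agent.Helper27.T4
open Pool.Agent.Helper5.ET (bb era own cnt av Nj pr pr_prime pr_inj pre mask)
open Pool.Agent.Helper37.T5g Pool.Agent.Helper84.T5g Pool.Agent.Helper57.T5
open Pool.Agent.Helper30.T5g
open Pool.Agent.Helper87.OUT2g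
open Pool.Agent.Helper44.T5g (c0_eq c0G_cast_low XJG_spec XJ_eq pJ_ne_two)

variable {m : Sq} {k : ℕ}

/-- a set of labels is bounded by the numbers of pairs of coordinates -/
theorem card_le_coords {l l' n : ℕ} {w : Key → ℕ} {z z' : Fin 3 → ℕ}
    {S : Finset ((JF → ℕ) × (JF → ℕ))} (hS : S ⊆ LabJ m k l l' w n z z') :
    S.card ≤ ∏ i : Fin 4, (S.image (fun q => (q.1 (Sum.inr i), q.2 (Sum.inr i)))).card := by
  classical
  rw [← Fintype.card_piFinset]
  refine card_le_card_of_injOn (fun q i => (q.1 (Sum.inr i), q.2 (Sum.inr i))) ?_ ?_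
  · intro q hq
    rw [mem_coe, Fintype.mem_piFinset]
    intro i
    exact mem_image_of_mem (fun q => (q.1 (Sum.inr i), q.2 (Sum.inr i))) hq
  · intro q hq r hr h
    have h1 := hS hq
    have h2 := hS hr
    unfold LabJ at h1 h2
    rw [mem_filter] at h1 h2
    refine Prod.ext ?_ ?_
    · funext i
      rcases i with f | i
      · exact (h1.2.1 f).trans (h2.2.1 f).symm
      · exact congrArg Prod.fst (congrFun h i)
    · funext i
      rcases i with f | i
      · exact (h1.2.2.1 f).trans (h2.2.2.1 f).symm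
      · exact congrArg Prod.snd (congrFun h i)

/-- number of pairs of coordinates -/
theorem card_coords {l l' n : ℕ} (hm : m.Ok) (hl : l' ≤ l) (hs : sL m k l' = sL m k l)
    {w : Key → ℕ} {z z' : Fin 3 → ℕ}
    {S : Finset ((JF → ℕ) × (JF → ℕ))} (hS : S ⊆ LabJ m k l l' w n z z') (i : Fin 4) :
    (S.image (fun q => (q.1 (Sum.inr i), q.2 (Sum.inr i)))).card ≤
      2 * (pJ k (sL m k l) (Sum.inr i) - 1) * pJ k (sL m k l) (Sum.inr i) ^
        ((aJ m k (sL m k l) l (Sum.inr i) - aJ m k (sL m k l) l' (Sum.inr i)) / 2) := by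
  classical
  set p := pJ k (sL m k l) with hp
  set a := aJ m k (sL m k l) l (Sum.inr i) with ha
  set a' := aJ m k (sL m k l) l' (Sum.inr i) with ha'
  have hmono : a' ≤ a := Pool.Agent.Helper44.T5g.aJ_mono m k _ _ hl
  have hez : ∀ x, x ≤ ef m k x 0 := fun x => (lt_ez hm _ x).le
  have hez' : l' ≤ ef m k l 0 := hl.trans (hez l)
  have e1 : XJ m k l' = Pool.Agent.Helper44.T5g.XJG m k (sL m k l) l' := by rw [XJ_eq, hs]
  have e2 : c0 m k l' w = Pool.Agent.Helper44.T5g.c0G m k (sL m k l) (ef m k l' 0) l' w := by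
    funext x
    rw [c0_eq, hs]
  have h := Pool.Agent.Helper18.T5.card_comp_le (pJ_prime k (sL m k l) (Sum.inr i))
    (pJ_ne_two k _ (Sum.inr i)) a a' a'
    ((n : ZMod (p (Sum.inr i) ^ a')) - ((w (Key.J l (Sum.inr i) (maskJ ∅ 0)) : ℕ) :
      ZMod (p (Sum.inr i) ^ a')) - ((w (Key.J l' (Sum.inr i) (maskJ ∅ 0)) : ℕ) :
      ZMod (p (Sum.inr i) ^ a')))
    (S.image (fun q => (q.1 (Sum.inr i), q.2 (Sum.inr i)))) ?_
  · refine h.trans (le_of_eq ?_)
    congr 2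
    omega
  · intro u hu
    rw [mem_image] at hu
    obtain ⟨q, hq, rfl⟩ := hu
    have h1 := hS hq
    unfold LabJ at h1
    rw [mem_filter, mem_product, e1, e2, XJ_eq] at h1
    obtain ⟨⟨h2, h3⟩, _, _, h4⟩ := h1
    have b1 := XJG_spec h2 (Sum.inr i)
    have b2 := XJG_spec h3 (Sum.inr i)
    have hgood : ∀ x c : ℕ, Pool.Agent.Helper44.T5.Good x →
        ((c = 0 ∧ x = 1) ∨ x ^ 2 < p (Sum.inr i) ^ c) →
        (x = 1 ∨ (x.Prime ∧ x ^ 2 < p (Sum.inr i) ^ c)) := by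
      intro x c hx hx2
      rcases hx with hx | hx
      · exact Or.inl hx
      · rcases hx2 with hx2 | hx2
        · exact Or.inl hx2.2
        · exact Or.inr ⟨hx, hx2⟩
    refine ⟨b1.2.1, b2.2.1, hgood _ _ b1.1 b1.2.2, hgood _ _ b2.1 b2.2.2, ?_⟩
    have h5 : ((c0 m k l w q.1 : ℕ) : ZMod (p (Sum.inr i) ^ a')) =
        Lg (p (Sum.inr i)) a' (q.1 (Sum.inr i)) +
        ((w (Key.J l (Sum.inr i) (maskJ (preJ m k l (Sum.inr i)) q.1)) : ℕ) :
          ZMod (p (Sum.inr i) ^ a')) := by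
      rw [c0_eq]
      exact c0G_cast_low m k _ _ l w _ _
        (Pool.Agent.Helper44.T5g.aJ_mono m k _ _ hez') b1.2.1
    have h6 : ((Pool.Agent.Helper44.T5g.c0G m k (sL m k l) (ef m k l' 0) l' w q.2 : ℕ) :
        ZMod (p (Sum.inr i) ^ a')) =
        Lg (p (Sum.inr i)) a' (q.2 (Sum.inr i)) +
        ((w (Key.J l' (Sum.inr i) (maskJ (preJ m k l' (Sum.inr i)) q.2)) : ℕ) :
          ZMod (p (Sum.inr i) ^ a')) :=
      c0G_cast_low m k _ _ l' w _ _
        (Pool.Agent.Helper44.T5g.aJ_mono m k _ _ (hez l')) b2.2.1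
    have h7 : maskJ (preJ m k l (Sum.inr i)) q.1 = maskJ ∅ 0 := rfl
    have h8 : maskJ (preJ m k l' (Sum.inr i)) q.2 = maskJ ∅ 0 := rfl
    rw [h7] at h5
    rw [h8] at h6
    have h9 : ((c0 m k l w q.1 + Pool.Agent.Helper44.T5g.c0G m k (sL m k l) (ef m k l' 0) l' w
        q.2 : ℕ) : ZMod (p (Sum.inr i) ^ a')) = n := by
      rw [ZMod.natCast_eq_natCast_iff]
      exact h4.of_dvd (pow_dvd_NN p (aJ m k (sL m k l) l') (Sum.inr i))
    rw [Nat.cast_add, h5, h6] at h9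
    rw [← h9]
    ring

/-- **(L2)** -/
theorem card_labJ {l l' : ℕ} (hm : m.Ok) (hl : l' ≤ l) (hs : sL m k l' = sL m k l)
    (w : Key → ℕ) (n : ℕ) (z z' : Fin 3 → ℕ) :
    (LabJ m k l l' w n z z').card ≤ LB m k l l' := by
  refine (card_le_coords (Subset.refl _)).trans ?_
  unfold LB
  refine Finset.prod_le_prod' (fun i _ => ?_)
  refine (card_coords hm hl hs (Subset.refl _) i).trans ?_
  have hp := (pJ_prime k (sL m k l) (Sum.inr i)).pos
  rw [mul_assoc, pow_add]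
  refine Nat.mul_le_mul_left 2 ?_
  rw [mul_comm]
  refine Nat.mul_le_mul_left _ ?_
  calc pJ k (sL m k l) (Sum.inr i) - 1 ≤ pJ k (sL m k l) (Sum.inr i) := Nat.sub_le _ _
    _ ≤ _ := Nat.le_self_pow (by norm_num) _

/-- **(L3)** -/
theorem card_labJ_const {l l' n : ℕ} (hm : m.Ok) (hl : l' ≤ l) (hs : sL m k l' = sL m k l)
    {w : Key → ℕ} {z z' : Fin 3 → ℕ} {S : Finset ((JF → ℕ) × (JF → ℕ))}
    (hS : S ⊆ LabJ m k l l' w n z z')
    (h : ∀ i : Fin 4, aJ m k (sL m k l) l (Sum.inr i) = aJ m k (sL m k l) l' (Sum.inr i) ∨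
      ((∀ q ∈ S, ∀ r ∈ S, q.1 (Sum.inr i) = r.1 (Sum.inr i)) ∧
        ∀ q ∈ S, ∀ r ∈ S, q.2 (Sum.inr i) = r.2 (Sum.inr i))) :
    S.card ≤ ∏ i : Fin 4, (2 * pJ k (sL m k l) (Sum.inr i)) := by
  classical
  refine (card_le_coords hS).trans (Finset.prod_le_prod' (fun i _ => ?_))
  have hp := (pJ_prime k (sL m k l) (Sum.inr i)).pos
  rcases h i with h1 | ⟨h1, h2⟩
  · refine (card_coords hm hl hs hS i).trans ?_
    rw [h1, Nat.sub_self, Nat.zero_div, pow_zero, mul_one]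
    exact Nat.mul_le_mul_left 2 (Nat.sub_le _ _)
  · refine le_trans (card_le_one.2 ?_) (by omega : 1 ≤ 2 * pJ k (sL m k l) (Sum.inr i))
    intro u hu v hv
    rw [mem_image] at hu hv
    obtain ⟨q, hq, rfl⟩ := hu
    obtain ⟨r, hr, rfl⟩ := hv
    exact Prod.ext (h1 q hq r hr) (h2 q hq r hr)

/-- **(L1)** the labels of hits satisfy the congruence of the joint level -/
theorem labH_sub (hm : m.Ok) {l l' : ℕ} (hl : l' ≤ l) (hs : sL m k l' = sL m k l)
    (w : Key → ℕ) (n : ℕ) (z z' : Fin 3 → ℕ) :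
    LabH m k l l' w n z z' ⊆ LabJ m k l l' w n z z' := by
  intro g hg
  unfold LabH at hg
  rw [mem_image] at hg
  obtain ⟨q, hq, rfl⟩ := hg
  rw [mem_filter] at hq
  obtain ⟨hq, hz, hz'⟩ := hq
  unfold Hts at hq
  rw [mem_filter, mem_product] at hq
  obtain ⟨⟨h1, h2⟩, h3⟩ := hq
  obtain ⟨v, hv, e1⟩ := exists_val_eq hm h1
  obtain ⟨v', hv', e2⟩ := exists_val_eq hm h2
  have hx : q.1.1.1 ∈ XJ m k l := by
    unfold Pm at h1
    rw [mem_product, mem_product] at h1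
    exact h1.1.1
  have hx' : q.2.1.1 ∈ XJ m k l' := by
    unfold Pm at h2
    rw [mem_product, mem_product] at h2
    exact h2.1.1
  unfold LabJ
  rw [mem_filter, mem_product]
  refine ⟨⟨hx, hx'⟩, hz, hz', ?_⟩
  rw [e1, e2] at h3
  have hd : Jn m k (sL m k l) l' ∣ v + v' := by
    refine dvd_add ?_ ?_
    · exact (Pool.Agent.Helper44.T5g.Jn_dvd m k _ hl).trans hv
    · rwa [hs] at hv'
  rw [← h3, show c0 m k l w q.1.1.1 + v + (c0 m k l' w q.2.1.1 + v') =
    c0 m k l w q.1.1.1 + c0 m k l' w q.2.1.1 + (v + v') by ring]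
  have h4 : (v + v') ≡ 0 [MOD Jn m k (sL m k l) l'] := (Nat.modEq_zero_iff_dvd).2 hd
  have h5 := (Nat.ModEq.refl (n := Jn m k (sL m k l) l')
    (c0 m k l w q.1.1.1 + c0 m k l' w q.2.1.1)).add h4
  rw [add_zero] at h5
  exact h5.symm

end Pool.Agent.Helper25.T5g
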