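import Pool.Agent.Helper25.T5g.Side
import Pool.Agent.Helper84.T5g.Pair
import Pool.Agent.Helper45.T5g.WinB
import Pool.Agent.Helper75.T5.Sink
import Pool.Agent.Helper36.T5.Out1
import Pool.Agent.Helper48.T5g.EvInt

/-!
# T5b: the outermost static level as a level with an outer key, decomposition of the elements
-/

set_option autoImplicit false

namespace Pool.Agent.Helper25.T5g

open Finset Pool.Agent.Helper27.T4 Pool.Agent.Helper25.T5 Pool.Agent.Helper98.T5
open Pool.Agent.Helper5.ET (bb era own cnt av Nj pr pr_prime pr_inj pre mask)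
open Pool.Agent.Helper37.T5g Pool.Agent.Helper84.T5g Pool.Agent.Helper57.T5
open Pool.Agent.Helper27.T5b
open Pool.Agent.Helper27.T5g hiding c0_lt
open Pool.Agent.Helper22.HW Pool.Agent.Helper50.T5 Pool.Agent.Helper39.T5
open Pool.Agent.Helper30.T5g (pz QF QT RT PZ ez NL)
open Pool.Agent.Helper75.T5
open Pool.Agent.Helper45.T5g (Ss_ok)
open Pool.Agent.Helper22.SL (rk3)

variable {m : Sq} {k : ℕ}

/-- the static level `0` with the outer key as a parameter -/
noncomputable def OS (m : Sq) (k s l : ℕ) : OSide (pz k s) Key (JF → ℕ) :=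
  ⟨Jn m k s (ez m (s - 1) l) * LL (Pool.Agent.Helper84.T5g.QQ m k s) 0, zf m k s, zf m k s,
    fun o f y => Key.S l 0 f o (mask (univ.filter (fun g => g < f)) y)⟩

theorem OS_F (m : Sq) (k s l : ℕ) : (OS m k s l).F = Jn m k s (ez m (s - 1) l) := by
  show Jn m k s (ez m (s - 1) l) * LL (Pool.Agent.Helper84.T5g.QQ m k s) 0 = _
  rw [LL_zero, mul_one]

theorem OS_ok {s l : ℕ} (hs : sL m k l = s) (h0 : 0 < s) : (OS m k s l).Ok rk3 (Mk m k) where
  ok := by
    subst hs
    intro o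
    exact Ss_ok (t := 0) h0 (by omega) o
  outer := by
    intro o o' i i' y y' h
    have h' : Key.S l 0 i o (mask (univ.filter (fun g => g < i)) y) =
      Key.S l 0 i' o' (mask (univ.filter (fun g => g < i')) y') := h
    rw [Key.S.injEq] at h'
    exact h'.2.2.2.1

theorem cs_zero {s l : ℕ} (hs : sL m k l = s) (w : Key → ℕ) (o : JF → ℕ) (y : Fin 3 → ℕ) :
    cs m k l 0 w o y = (OS m k s l).cd (pz_prime k s) (pz_inj k s) w o y := by
  subst hs
  rfl

theorem OS_disj {s l l' : ℕ} (h : l ≠ l') (o : JF → ℕ) (i : Fin 3) (y : Fin 3 → ℕ)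
    (o' : JF → ℕ) (i' : Fin 3) (y' : Fin 3 → ℕ) :
    (OS m k s l).key o i y ≠ (OS m k s l').key o' i' y' := by
  intro h'
  have h2 : Key.S l 0 i o (mask (univ.filter (fun g => g < i)) y) =
    Key.S l' 0 i' o' (mask (univ.filter (fun g => g < i')) y') := h'
  rw [Key.S.injEq] at h2
  exact h h2.1

/-- the part of an element below the static level `0` -/
noncomputable def rest (m : Sq) (k l : ℕ) (w : Key → ℕ) (x : JF → ℕ)
    (y : Fin (rL m k l) → Fin 3 → ℕ) (u : ℕ) : ℕ :=
  (∑ t ∈ (univ : Finset (Fin (rL m k l))).filter (fun t : Fin (rL m k l) => (t : ℕ) ≠ 0),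
    cs m k l t w (okey m k l t x) (y t)) + u

theorem el_eq {l : ℕ} (h0 : 0 < rL m k l) (w : Key → ℕ) (x : JF → ℕ)
    (y : Fin (rL m k l) → Fin 3 → ℕ) (u : ℕ) :
    el m k l w x y u = c0 m k l w x + cs m k l 0 w (okey m k l 0 x) (y ⟨0, h0⟩) +
      rest m k l w x y u := by
  unfold el rest
  have h1 : ∑ t : Fin (rL m k l), cs m k l t w (okey m k l t x) (y t) =
      cs m k l 0 w (okey m k l 0 x) (y ⟨0, h0⟩) +
      ∑ t ∈ (univ : Finset (Fin (rL m k l))).filter (fun t : Fin (rL m k l) => (t : ℕ) ≠ 0),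
        cs m k l t w (okey m k l t x) (y t) := by
    rw [← Finset.add_sum_erase univ _ (mem_univ (⟨0, h0⟩ : Fin (rL m k l)))]
    congr 1
    refine Finset.sum_congr ?_ (fun _ _ => rfl)
    ext t
    rw [mem_erase, mem_filter]
    simp only [mem_univ, and_true, true_and, ne_eq, Fin.ext_iff]
  rw [h1]
  ring

/-- the unit of the rest -/
theorem dvd_rest (hm : m.Ok) {l : ℕ} (h0 : 0 < rL m k l) (w : Key → ℕ) (x : JF → ℕ)
    (y : Fin (rL m k l) → Fin 3 → ℕ) {u : ℕ} (hu : Un m k l ∣ u) :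
    Jn m k (sL m k l) l * QT m k (sL m k l) ∣ rest m k l w x y u := by
  have hQ : ∀ t, 0 < t → QT m k (sL m k l) ∣ LL (Pool.Agent.Helper84.T5g.QQ m k (sL m k l)) t := by
    intro t ht
    have h1 : Pool.Agent.Helper84.T5g.QQ m k (sL m k l) 0 ∣
        LL (Pool.Agent.Helper84.T5g.QQ m k (sL m k l)) t :=
      Finset.dvd_prod_of_mem _ (mem_range.2 ht)
    exact h1
  unfold rest
  refine dvd_add (Finset.dvd_sum (fun t ht => ?_)) ?_
  · have ht0 : 0 < (t : ℕ) := Nat.pos_of_ne_zero (mem_filter.1 ht).2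
    refine dvd_trans ?_ (dvd_cs m k l t w _ _)
    refine mul_dvd_mul ?_ (hQ t ht0)
    exact Pool.Agent.Helper48.T5g.Jn_dvd m k _ (ef_bounds hm k l (t + 1)).1.le
  · refine dvd_trans ?_ hu
    exact mul_dvd_mul (dvd_refl _) (hQ _ h0)

/-- multiples of `d` below `A` -/
def UU (d A : ℕ) : Finset ℕ := (range A).filter (fun u => d ∣ u)

theorem card_UU_le {d : ℕ} (hd : 0 < d) (A : ℕ) : (UU d A).card ≤ A / d + 1 := by
  unfold UU
  have h1 : (range A).filter (fun u => d ∣ u) ⊆ (range (A / d + 1)).image (fun i => d * i) := by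
    intro u hu
    rw [mem_filter, mem_range] at hu
    obtain ⟨h2, i, rfl⟩ := hu
    rw [mem_image]
    refine ⟨i, ?_, rfl⟩
    rw [mem_range, Nat.lt_succ_iff, Nat.le_div_iff_mul_le hd, mul_comm]
    exact h2.le
  exact (card_le_card h1).trans (card_image_le.trans (card_range _).le)

theorem mem_UU {d A u : ℕ} : u ∈ UU d A ↔ u < A ∧ d ∣ u := by
  unfold UU
  rw [mem_filter, mem_range]

end Pool.Agent.Helper25.T5g
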