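import Pool.Agent.Helper27.T5g.Range
import Pool.Agent.Helper25.T5.PrE

/-!
# T5b: the joint level of a state as a side of the crude block
-/

set_option autoImplicit false

namespace Pool.Agent.Helper25.T5g

open Finset Pool.Agent.Helper27.T4 Pool.Agent.Helper25.T5 Pool.Agent.Helper98.T5
open Pool.Agent.Helper5.ET (bb era own cnt av Nj pr pr_prime pr_inj pre)
open Pool.Agent.Helper37.T5g Pool.Agent.Helper84.T5g Pool.Agent.Helper57.T5
open Pool.Agent.Helper27.T5b
open Pool.Agent.Helper27.T5g hiding c0_lt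
open Pool.Agent.Helper22.HW Pool.Agent.Helper50.T5 Pool.Agent.Helper39.T5
open Pool.Agent.Helper30.T5g (pz QF QT RT PZ ez NL)

variable {m : Sq} {k : ℕ}

/-- the side of the joint level of the state `l` at the index `l` -/
noncomputable def jS (m : Sq) (k l : ℕ) : Sd JF Key :=
  ⟨aJ m k (sL m k l) l, preJ m k l, fun i u => Key.J l i u⟩

theorem maskJ_eq (P : Finset JF) (x : JF → ℕ) : maskJ P x = Helper25.T5.mk P x := rfl

theorem aJ_mono (m : Sq) (k s : ℕ) {l l' : ℕ} (h : l' ≤ l) : aJ m k s l' ≤ aJ m k s l := by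
  rintro (f | i)
  · exact ct_mono _ h
  · refine Fin.cases ?_ (fun f => ?_) i
    · exact ct_mono _ h
    · exact ct_mono _ h

theorem aJ_inl (m : Sq) (k s l : ℕ) (f : Fin 3) : aJ m k s l (Sum.inl f) = av (mL m k l) f := by
  show ct (ins m k) own (ex m k) (Sum.inl f) l = _
  rw [ct_main]
  rfl

theorem eSide (m : Sq) (k l : ℕ) : ESide (jS m k l) (mL m k l) where
  a := fun f => aJ_inl m k (sL m k l) l f
  pre := fun f => by
    show (pre (mL m k l) f).image Sum.inl = _
    rw [Finset.map_eq_image]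
    rfl
  preE := fun _ => rfl

theorem pJ_two (k s : ℕ) (i : JF) : pJ k s i ≠ 2 := by
  rcases i with f | i
  · exact Pool.Agent.Helper5.ET.pr_ne_two f
  · refine Fin.cases ?_ (fun f => ?_) i
    · show (1000039 : ℕ) ≠ 2
      norm_num
    · have h := Pool.Agent.Helper30.T5.million_lt_sp (3 * ((s + 1) % (k + 3)) + f)
      show pz k (s + 1) f ≠ 2
      unfold pz
      omega

theorem XJ_sub (m : Sq) (k l : ℕ) : XJ m k l ⊆ Xg (pJ k (sL m k l)) (aJ m k (sL m k l) l) := by
  intro x hx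
  unfold XJ at hx
  unfold Xg
  rw [Fintype.mem_piFinset] at hx ⊢
  intro i
  have h := hx i
  rw [mem_Ug]
  split_ifs at h with h0
  · exact Or.inl (mem_singleton.1 h)
  · right
    rw [mem_T1] at h
    refine ⟨?_, h.1, h.2.1, h.2.2⟩
    have h1 := h.1.one_lt
    have h2 := h.2.2
    nlinarith

/-- the residues of an element of the state `l` -/
theorem res_el (hm : m.Ok) {l : ℕ} {x : JF → ℕ}
    (hx : x ∈ Xg (pJ k (sL m k l)) (aJ m k (sL m k l) l)) (w : Key → ℕ)
    (y : Fin (rL m k l) → Fin 3 → ℕ) {u : ℕ} (hu : Un m k l ∣ u) :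
    Res (pJ k (sL m k l)) (jS m k l) w (el m k l w x y u) x := by
  intro i
  have hef : ∀ t, l ≤ ef m k l t := fun t => (ef_bounds hm k l t).1.le
  have hdJ : ∀ t, pJ k (sL m k l) i ^ aJ m k (sL m k l) l i ∣ FF m k l t := by
    intro t
    refine (pow_dvd_pow _ (aJ_mono m k (sL m k l) (hef t) i)).trans ?_
    exact Finset.dvd_prod_of_mem (fun i => pJ k (sL m k l) i ^ aJ m k (sL m k l) (ef m k l t) i)
      (Finset.mem_univ i)
  show ((el m k l w x y u : ℕ) : ZMod (pJ k (sL m k l) i ^ aJ m k (sL m k l) l i)) =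
    Lg (pJ k (sL m k l) i) (aJ m k (sL m k l) l i) (x i) +
      ((w (Key.J l i (Helper25.T5.mk (preJ m k l i) x)) : ℕ) :
        ZMod (pJ k (sL m k l) i ^ aJ m k (sL m k l) l i))
  have h0 : ((c0 m k l w x : ℕ) : ZMod (pJ k (sL m k l) i ^ aJ m k (sL m k l) l i)) =
      Lg (pJ k (sL m k l) i) (aJ m k (sL m k l) l i) (x i) +
      ((w (Key.J l i (Helper25.T5.mk (preJ m k l i) x)) : ℕ) :
        ZMod (pJ k (sL m k l) i ^ aJ m k (sL m k l) l i)) := by
    have h1 : ((c0 m k l w x : ℕ) :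
        ZMod (pJ k (sL m k l) i ^ aJ m k (sL m k l) (ef m k l 0) i)) = cmp0 m k l w x i :=
      cv_cast_comp (pJ_prime k _) (pJ_inj k _) _ _ _
    have h2 := congrArg (ZMod.castHom (pow_dvd_pow _ (aJ_mono m k (sL m k l) (hef 0) i))
      (ZMod (pJ k (sL m k l) i ^ aJ m k (sL m k l) l i))) h1
    rw [map_natCast] at h2
    rw [h2]
    unfold cmp0
    rw [map_add, map_natCast, Lg_red (pJ_prime k _ i) (pJ_two k _ i) _ _ _ (Ug_coprime
      (mem_Xg hx i)) (aJ_mono m k (sL m k l) (hef 0) i)]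
    rfl
  unfold el
  rw [Nat.cast_add, Nat.cast_add, h0]
  have h3 : ((∑ t : Fin (rL m k l), cs m k l t w (okey m k l t x) (y t) : ℕ) :
      ZMod (pJ k (sL m k l) i ^ aJ m k (sL m k l) l i)) = 0 := by
    rw [ZMod.natCast_eq_zero_iff]
    refine Finset.dvd_sum (fun t _ => ?_)
    exact ((hdJ (t + 1)).trans (dvd_mul_right _ _)).trans (dvd_cs m k l t w _ _)
  have h4 : ((u : ℕ) : ZMod (pJ k (sL m k l) i ^ aJ m k (sL m k l) l i)) = 0 := by
    rw [ZMod.natCast_eq_zero_iff]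
    refine dvd_trans ?_ hu
    unfold Un
    refine dvd_trans ?_ (dvd_mul_right _ _)
    exact Finset.dvd_prod_of_mem (fun i => pJ k (sL m k l) i ^ aJ m k (sL m k l) l i)
      (Finset.mem_univ i)
  rw [h3, h4, add_zero, add_zero]

/-- the decomposition of an element -/
theorem mem_AA {l a : ℕ} {w : Key → ℕ} : a ∈ AA m k l w ↔ ∃ x ∈ XJ m k l,
    ∃ y : Fin (rL m k l) → Fin 3 → ℕ, (∀ t : Fin (rL m k l), y t ∈ Ys m k l t) ∧ ∃ v ∈ Vw m k l w,
      a = el m k l w x y (Un m k l * v) := by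
  unfold AA
  rw [Finset.mem_image]
  constructor
  · rintro ⟨⟨⟨x, y⟩, u⟩, hq, rfl⟩
    rw [Finset.mem_product, Finset.mem_product, Fintype.mem_piFinset, Finset.mem_image] at hq
    obtain ⟨⟨hx, hy⟩, v, hv, hu⟩ := hq
    exact ⟨x, hx, y, hy, v, hv, by simp only at hu ⊢; rw [← hu]⟩
  · rintro ⟨x, hx, y, hy, v, hv, rfl⟩
    refine ⟨((x, y), Un m k l * v), ?_, rfl⟩
    rw [Finset.mem_product, Finset.mem_product, Fintype.mem_piFinset, Finset.mem_image]
    exact ⟨⟨hx, hy⟩, v, hv, rfl⟩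

/-- an element has the residues of an admissible vector -/
theorem res_of_mem (hm : m.Ok) {l a : ℕ} {w : Key → ℕ} (ha : a ∈ AA m k l w) :
    ∃ x ∈ Xg (pJ k (sL m k l)) (aJ m k (sL m k l) l),
      Res (pJ k (sL m k l)) (jS m k l) w a x := by
  obtain ⟨x, hx, y, _, v, _, rfl⟩ := mem_AA.mp ha
  exact ⟨x, XJ_sub m k l hx, res_el hm (XJ_sub m k l hx) w y (dvd_mul_right _ _)⟩

/-! ## keys -/

theorem mk_le (P : Finset JF) (x : JF → ℕ) (i : JF) : Helper25.T5.mk P x i ≤ x i := by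
  unfold Helper25.T5.mk
  split_ifs
  · exact le_rfl
  · exact Nat.zero_le _

/-- the keys of the joint level are keys of the state -/
theorem key_mem {l : ℕ} (hJ : Jn m k (sL m k l) l ≤ NL m k l) {x : JF → ℕ}
    (hx : x ∈ Xg (pJ k (sL m k l)) (aJ m k (sL m k l) l)) (P : Finset JF) (i : JF) :
    Key.J l i (Helper25.T5.mk P x) ∈ keysOf m k l := by
  unfold keysOf
  rw [Finset.mem_union, Finset.mem_union]
  left
  left
  rw [Finset.mem_image]
  refine ⟨(i, Helper25.T5.mk P x), ?_, rfl⟩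
  rw [Finset.mem_product, Fintype.mem_piFinset]
  refine ⟨Finset.mem_univ _, fun j => ?_⟩
  rw [Finset.mem_range]
  refine (mk_le P x j).trans_lt ?_
  have h1 := mem_Ug.mp (mem_Xg hx j)
  have h2 : pJ k (sL m k l) j ^ aJ m k (sL m k l) l j ≤ Jn m k (sL m k l) l := by
    refine Nat.le_of_dvd (Jn_pos _ _ _ _) ?_
    exact Finset.dvd_prod_of_mem (fun i => pJ k (sL m k l) i ^ aJ m k (sL m k l) l i)
      (Finset.mem_univ j)
  unfold Bd
  rcases h1 with h1 | h1
  · omega
  · have := h1.1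
    omega

theorem layG {l : ℕ} (hm : m.Ok) (hJ : Jn m k (sL m k l) l ≤ NL m k l) {K : Finset Key}
    (hK : keysOf m k l ⊆ K) : LayG (Mk m k) K (pJ k (sL m k l)) (jS m k l) where
  mem := fun i _ hx => hK (key_mem hJ hx _ i)
  dvd := fun i x _ => by
    show _ ∣ pJ k (sL m k l) i ^ aJ m k (sL m k l) (ef m k l 0) i
    exact pow_dvd_pow _ (aJ_mono m k _ (ef_bounds hm k l 0).1.le i)

theorem kInj {l l' : ℕ} (h : l ≠ l') (p : JF → ℕ) : KInj p (jS m k l) (jS m k l') where
  left := by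
    intro f g x _ y _ he
    have he' : Key.J l f (Helper25.T5.mk (preJ m k l f) x) =
      Key.J l g (Helper25.T5.mk (preJ m k l g) y) := he
    injection he' with _ h1 h2
    subst h1
    exact ⟨rfl, h2⟩
  right := by
    intro f g x _ y _ he
    have he' : Key.J l' f (Helper25.T5.mk (preJ m k l' f) x) =
      Key.J l' g (Helper25.T5.mk (preJ m k l' g) y) := he
    injection he' with _ h1 h2
    subst h1
    exact ⟨rfl, h2⟩
  mixed := by
    intro f g x _ y _ he
    have he' : Key.J l f (Helper25.T5.mk (preJ m k l f) x) =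
      Key.J l' g (Helper25.T5.mk (preJ m k l' g) y) := he
    injection he' with h1 _ _
    exact h h1

end Pool.Agent.Helper25.T5g
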