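import Pool.Agent.Helper25.T5g.Num
import Pool.Agent.Helper87.OUT2g.Inst

/-!
# T5b, line 5: numbers (N2), (N4)
-/

set_option autoImplicit false

namespace Pool.Agent.Helper25.T5g

open Finset Pool.Agent.Helper27.T4
open Pool.Agent.Helper5.ET (bb era own cnt av Nj pr pr_prime pr_inj pre mask)
open Pool.Agent.Helper37.T5g Pool.Agent.Helper84.T5g Pool.Agent.Helper57.T5
open Pool.Agent.Helper27.T5b
open Pool.Agent.Helper27.T5g hiding c0_lt
open Pool.Agent.Helper30.T5g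
open Pool.Agent.Helper27.T5 (gw)
open Pool.Agent.Helper87.OUT2g

variable {m : Sq} {k : ℕ}

/-- the number of window values -/
theorem BW_eq (hm : m.Ok) {l : ℕ} (hl : bb 0 ≤ mL m k l) (hs : 1 ≤ sL m k l) :
    BW m k l = 18 * RT m k (sL m k l - 1) + 1 := by
  unfold BW
  obtain ⟨u, hu⟩ : ∃ u, sL m k l = u + 1 := ⟨sL m k l - 1, by omega⟩
  have h1 := Jn_mul_RT (cpl_self (k := k) hm hl)
  have h2 : QQ m k (sL m k l) 0 = QT m k (sL m k l) := rfl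
  rw [h2, ← h1, hu, RT_succ, Nat.add_sub_cancel]
  have h3 : 0 < Jn m k (u + 1) l * QT m k (u + 1) :=
    Nat.mul_pos (Pool.Agent.Helper44.T5g.Jn_pos _ _ _ _) (QT_pos m k (u + 1))
  congr 1
  rw [show 18 * (Jn m k (u + 1) l * (RT m k u * QT m k (u + 1))) =
    (Jn m k (u + 1) l * QT m k (u + 1)) * (18 * RT m k u) by ring]
  exact Nat.mul_div_cancel_left _ h3

/-- **(N2), (N4)** -/
theorem exists_up_num (hm : m.Ok) (k M : ℕ) : ∃ l0, ∀ l, l0 ≤ l →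
    bb 0 ≤ mL m k l ∧ kt m k ≤ era (mL m k l) ∧ 1 ≤ sL m k l ∧
    (M : ℝ) ≤ SS m (sL m k l) ∧
    (M : ℝ) * BW m k l ≤ Real.exp (1 / 1000 * SS m (sL m k l)) ∧
    (∀ f, Real.exp (SS m (sL m k l)) ≤ QF m k (sL m k l) f) ∧
    (QT m k (sL m k l) : ℝ) ≤ Real.exp (14 * SS m (sL m k l)) := by
  obtain ⟨s0, h0⟩ := exists_size hm k (19 * M + 1)
  obtain ⟨l1, h1⟩ := exists_sL hm k s0
  refine ⟨l1, fun l hl => ?_⟩
  obtain ⟨b1, b2, b3⟩ := h1 l hl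
  obtain ⟨a1, a2, a3, a4, a5⟩ := h0 _ b3
  push_cast at a2 a5
  have hM : (0 : ℝ) ≤ M := Nat.cast_nonneg _
  refine ⟨b1, b2, a1, by linarith, ?_, a3, a4⟩
  rw [BW_eq hm b1 a1]
  push_cast
  have h2 : (1 : ℝ) ≤ RT m k (sL m k l - 1) := by
    exact_mod_cast RT_pos m k (sL m k l - 1)
  refine le_trans ?_ a5
  nlinarith

end Pool.Agent.Helper25.T5g
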